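import Mathlib

open Set Real Filter Topology Metric Finset

namespace Pool.Agent.H.MP_d89e95_an

lemma global_sol {E : Type*} [NormedAddCommGroup E] [NormedSpace ℝ E] [CompleteSpace E]
    {f : E → E} {K L : NNReal} (hf : LipschitzWith K f) (hb : ∀ x, ‖f x‖ ≤ L) (x : E) :
    ∃ α : ℝ → E, α 0 = x ∧ ∀ t, HasDerivAt α (f (α t)) t := by
  have h1 : ∀ r : ℝ, ∃ α : ℝ → E, α 0 = x ∧
      ∀ t ∈ Ioo (-(|r| + 1)) (|r| + 1), HasDerivAt α (f (α t)) t := fun r => by
    have h0 : 0 < |r| + 1 := by positivity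
    obtain ⟨α, h1, h2⟩ := (IsPicardLindelof.of_time_independent (tmin := -(|r| + 1))
      (tmax := |r| + 1) (t₀ := ⟨0, by linarith, h0.le⟩) (x₀ := x) (a := L * ⟨_, h0.le⟩) (r := 0)
      (fun x _ => hb x) hf.lipschitzOnWith
      (by simp; rfl)).exists_eq_forall_mem_Icc_hasDerivWithinAt₀
    exact ⟨α, h1, fun t ht => (h2 t (Ioo_subset_Icc_self ht)).hasDerivAt (Icc_mem_nhds ht.1 ht.2)⟩
  choose α h1 h2 using h1
  have h3 : ∀ r s, |r| ≤ |s| → EqOn (α r) (α s) (Ioo (-(|r| + 1)) (|r| + 1)) := fun r s h =>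
    ODE_solution_unique_of_mem_Ioo (v := fun _ => f) (s := fun _ => univ) (t₀ := 0)
      (fun _ _ => hf.lipschitzOnWith) ⟨by linarith [abs_nonneg r], by positivity⟩
      (fun t ht => ⟨h2 r t ht, trivial⟩)
      (fun t ht => ⟨h2 s t (Ioo_subset_Ioo (by linarith) (by linarith) ht), trivial⟩)
      (by rw [h1, h1])
  have h4 : ∀ t : ℝ, t ∈ Ioo (-(|t| + 1)) (|t| + 1) := fun t =>
    ⟨by linarith [neg_abs_le t], by linarith [le_abs_self t]⟩
  refine ⟨fun t => α t t, h1 0, fun t => (h2 t t (h4 t)).congr_of_eventuallyEq ?_⟩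
  filter_upwards [Ioo_mem_nhds (h4 t).1 (h4 t).2] with s hs
  rcases le_total |s| |t| with h | h
  exacts [h3 s t h (h4 s), (h3 t s h hs).symm]

lemma back {E : Type*} [NormedAddCommGroup E] [NormedSpace ℝ E]
    {f : E → E} {K : NNReal} (hf : LipschitzWith K f) {α β : ℝ → E}
    (ha : ∀ t, HasDerivAt α (f (α t)) t) (hb : ∀ t, HasDerivAt β (f (β t)) t) {T : ℝ}
    (hT : 0 ≤ T) : dist (α (-T)) (β (-T)) ≤ dist (α 0) (β 0) * exp (K * T) := by
  have h : ∀ γ : ℝ → E, (∀ t, HasDerivAt γ (f (γ t)) t) →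
      ∀ t, HasDerivAt (fun s => γ (-s)) (-f (γ (-t))) t := fun γ hγ t => by
    have := (hγ (-t)).scomp t (hasDerivAt_neg t)
    simpa [Function.comp_def] using this
  have := dist_le_of_trajectories_ODE (v := fun _ x => -f x) (K := K) (a := 0) (b := T)
    (f := fun s => α (-s)) (g := fun s => β (-s)) (δ := dist (α 0) (β 0))
    (fun _ => hf.neg) (fun t _ => (h α ha t).continuousAt.continuousWithinAt)
    (fun t _ => (h α ha t).hasDerivWithinAt) (fun t _ => (h β hb t).continuousAt.continuousWithinAt)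
    (fun t _ => (h β hb t).hasDerivWithinAt) (by simp) T ⟨hT, le_rfl⟩
  simpa using this

variable {V : Type*} [Fintype V]

noncomputable def F (a : V → V → ℝ) (z : V → ℝ) (i : V) : ℝ := ∑ j, a i j * sin (z j - z i)

noncomputable def D (a : V → V → ℝ) (z : V → ℝ) : ℝ := ∑ i, ∑ j, a i j * (1 - cos (z j - z i))

noncomputable def J (a : V → V → ℝ) (z d : V → ℝ) (i : V) : ℝ :=
  ∑ j, a i j * cos (z j - z i) * (d j - d i)

noncomputable def N (d : V → ℝ) : ℝ := ∑ i, d i ^ 2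

noncomputable def Q (a : V → V → ℝ) (c : ℝ) (z d : V → ℝ) : ℝ :=
  -(1 / 2) * ∑ i, ∑ j, a i j * cos (z j - z i) * (d j - d i) ^ 2 - c * N d

structure Wt (a : V → V → ℝ) : Prop where
  sy : ∀ i j, a i j = a j i
  h0 : ∀ i j, 0 ≤ a i j
  h1 : ∀ i j, a i j ≤ 1

def Sol (a : V → V → ℝ) (θ : ℝ → V → ℝ) : Prop := ∀ t, HasDerivAt θ (F a (θ t)) t

lemma anti (w : V → V → ℝ) (hw : ∀ i j, w j i = -w i j) (u : V → ℝ) :
    ∑ i, ∑ j, w i j * (u j - u i) = -2 * ∑ i, u i * ∑ j, w i j := by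
  have h1 : ∑ i, ∑ j, w i j * u j = -∑ i, u i * ∑ j, w i j := by
    rw [sum_comm, ← sum_neg_distrib]
    refine sum_congr rfl fun i _ => ?_
    rw [mul_sum, ← sum_neg_distrib]
    exact sum_congr rfl fun j _ => by rw [hw]; ring
  have h2 : ∑ i, ∑ j, w i j * u i = ∑ i, u i * ∑ j, w i j :=
    sum_congr rfl fun i _ => by rw [mul_sum]; exact sum_congr rfl fun j _ => by ring
  simp only [mul_sub, sum_sub_distrib, h1, h2]; ring

variable {a : V → V → ℝ}

lemma antiF (h : Wt a) (z u : V → ℝ) :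
    ∑ i, ∑ j, a i j * sin (z j - z i) * (u j - u i) = -2 * ∑ i, u i * F a z i :=
  anti (fun i j => a i j * sin (z j - z i))
    (fun i j => by rw [h.sy j i, ← neg_sub (z j), sin_neg]; ring) u

lemma antiJ (h : Wt a) (z d u : V → ℝ) :
    ∑ i, ∑ j, a i j * cos (z j - z i) * (d j - d i) * (u j - u i) = -2 * ∑ i, u i * J a z d i :=
  anti (fun i j => a i j * cos (z j - z i) * (d j - d i))
    (fun i j => by rw [h.sy j i, ← neg_sub (z j), cos_neg]; ring) u

lemma Q_eq (h : Wt a) (c : ℝ) (z d : V → ℝ) : Q a c z d = ∑ i, d i * J a z d i - c * N d := by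
  have := antiJ h z d d
  simp only [mul_assoc, ← sq] at this
  simp only [Q, mul_assoc, this]; ring

omit [Fintype V] in
lemma abs_wt (h : Wt a) (i j : V) {x y : ℝ} (hx : |x| ≤ y) : |a i j * x| ≤ y := by
  rw [abs_mul, abs_of_nonneg (h.h0 i j)]
  nlinarith [h.h0 i j, h.h1 i j, abs_nonneg x]

lemma abs_sum_le {f : V → ℝ} {y : ℝ} (hf : ∀ j, |f j| ≤ y) :
    |∑ j, f j| ≤ Fintype.card V * y := by
  refine (abs_sum_le_sum_abs _ _).trans ((sum_le_sum fun j _ => hf j).trans ?_)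
  simp

lemma F_abs (h : Wt a) (z : V → ℝ) (i : V) : |F a z i| ≤ Fintype.card V := by
  simpa [F] using abs_sum_le fun j => abs_wt h i j (abs_sin_le_one (z j - z i))

lemma F_sub (h : Wt a) (x y : V → ℝ) (i : V) {r : ℝ} (hr : ∀ j, |x j - y j| ≤ r) :
    |F a x i - F a y i| ≤ 2 * Fintype.card V * r := by
  have : |F a x i - F a y i| ≤ Fintype.card V * (2 * r) := by
    simp only [F, ← sum_sub_distrib, ← mul_sub]
    refine abs_sum_le fun j => abs_wt h i j ((abs_sin_sub_sin_le _ _).trans ?_)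
    have e : x j - x i - (y j - y i) = (x j - y j) - (x i - y i) := by ring
    rw [e]
    linarith [abs_sub (x j - y j) (x i - y i), hr i, hr j]
  linarith

lemma F_lip (h : Wt a) : LipschitzWith (2 * Fintype.card V) (F a) := by
  refine LipschitzWith.of_dist_le_mul fun x y => ?_
  refine (dist_pi_le_iff (by positivity)).2 fun i => ?_
  have := F_sub h x y i (r := dist x y) fun j => by
    simpa [Real.dist_eq] using dist_le_pi_dist x y j
  simpa [Real.dist_eq] using this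

lemma exists_sol (h : Wt a) (x : V → ℝ) : ∃ θ, θ 0 = x ∧ Sol a θ :=
  global_sol (L := Fintype.card V) (F_lip h) (fun z => (pi_norm_le_iff_of_nonneg (by
    positivity)).2 fun i => by simpa using F_abs h z i) x

lemma Sol.comp {θ : ℝ → V → ℝ} (hθ : Sol a θ) (t : ℝ) (i : V) :
    HasDerivAt (fun t => θ t i) (F a (θ t) i) t := hasDerivAt_pi.1 (hθ t) i

lemma D_nonneg (h : Wt a) (z : V → ℝ) : 0 ≤ D a z :=
  sum_nonneg fun i _ => sum_nonneg fun j _ => mul_nonneg (h.h0 i j) (by linarith [cos_le_one (z j - z i)])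

lemma N_nonneg (d : V → ℝ) : 0 ≤ N d := sum_nonneg fun _ _ => sq_nonneg _

lemma sq_le_N (d : V → ℝ) (i : V) : d i ^ 2 ≤ N d :=
  single_le_sum (f := fun i => d i ^ 2) (fun _ _ => sq_nonneg _) (mem_univ i)

lemma hasDerivAt_D (h : Wt a) {θ : ℝ → V → ℝ} (hθ : Sol a θ) (t : ℝ) :
    HasDerivAt (fun t => D a (θ t)) (-2 * N (F a (θ t))) t := by
  have h1 : HasDerivAt (fun t => D a (θ t))
      (∑ i, ∑ j, a i j * sin (θ t j - θ t i) * (F a (θ t) j - F a (θ t) i)) t := by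
    unfold D
    refine HasDerivAt.fun_sum fun i _ => HasDerivAt.fun_sum fun j _ => ?_
    have := ((((hθ.comp t j).sub (hθ.comp t i)).cos).const_sub 1).const_mul (a i j)
    refine this.congr_deriv ?_
    simp only [Pi.sub_apply]; ring
  rw [antiF h] at h1
  simpa only [N, sq] using h1

lemma D_anti (h : Wt a) {θ : ℝ → V → ℝ} (hθ : Sol a θ) : Antitone fun t => D a (θ t) :=
  antitone_of_deriv_nonpos (fun t => (hasDerivAt_D h hθ t).differentiableAt) fun t => by
    rw [(hasDerivAt_D h hθ t).deriv]; linarith [N_nonneg (F a (θ t))]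

lemma F_small (h : Wt a) {θ : ℝ → V → ℝ} (hθ : Sol a θ) {ε : ℝ} (hε : 0 < ε) :
    ∃ T : ℕ, ∀ t, (T : ℝ) ≤ t → ∀ i, |F a (θ t) i| ≤ ε := by
  set n : ℝ := (Fintype.card V : ℝ) with hn
  have n0 : 0 ≤ n := by positivity
  set τ : ℝ := ε / (4 * n ^ 2 + 1) with hτ
  have τ0 : 0 < τ := by positivity
  have hτ' : τ * (4 * n ^ 2 + 1) = ε := by rw [hτ]; field_simp
  have hl := tendsto_atTop_ciInf (D_anti h hθ) ⟨0, by rintro _ ⟨t, rfl⟩; exact D_nonneg h _⟩
  have hl2 := hl.comp (tendsto_atTop_add_const_right atTop τ tendsto_id)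
  have hl3 := hl.sub hl2
  rw [sub_self] at hl3
  have hev := hl3.eventually (gt_mem_nhds (show (0 : ℝ) < τ * ε ^ 2 / 2 by positivity))
  obtain ⟨T, hT⟩ := eventually_atTop.1 hev
  obtain ⟨T', hT'⟩ := exists_nat_ge T
  refine ⟨T', fun t ht i => ?_⟩
  by_contra hc
  push Not at hc
  have h1 := hT t (hT'.trans ht)
  obtain ⟨s, hs, e⟩ := exists_hasDerivAt_eq_slope (fun t => D a (θ t))
    (fun t => -2 * N (F a (θ t))) (show t < t + τ by linarith)
    (fun t _ => (hasDerivAt_D h hθ t).continuousAt.continuousWithinAt)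
    (fun t _ => hasDerivAt_D h hθ t)
  have h2 : ∀ j, |θ s j - θ t j| ≤ n * τ := fun j => by
    obtain ⟨r, _, e⟩ := exists_hasDerivAt_eq_slope (fun t => θ t j)
      (fun t => F a (θ t) j) hs.1
      (fun t _ => (hθ.comp t j).continuousAt.continuousWithinAt) (fun t _ => hθ.comp t j)
    have p : 0 < s - t := by linarith [hs.1]
    rw [eq_div_iff p.ne'] at e
    rw [← e, abs_mul, abs_of_pos p]
    exact mul_le_mul (F_abs h _ _) (by linarith [hs.2]) p.le n0
  have h3 := F_sub h (θ s) (θ t) i h2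
  have h4 : ε / 2 ≤ |F a (θ s) i| := by
    have := abs_sub_abs_le_abs_sub (F a (θ t) i) (F a (θ s) i)
    rw [abs_sub_comm] at this
    nlinarith
  have h5 : (ε / 2) ^ 2 ≤ N (F a (θ s)) := by
    refine le_trans ?_ (sq_le_N _ i)
    rw [← sq_abs (F a (θ s) i)]; gcongr
  rw [add_sub_cancel_left, eq_div_iff τ0.ne'] at e
  simp only [Function.comp, id] at h1
  nlinarith

end Pool.Agent.H.MP_d89e95_an
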