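import Mathlib
import Pool.Agent.H.MP_d89e95_an.A

open Set Real Filter Topology Metric Finset MeasureTheory

namespace Pool.Agent.H.MP_d89e95_an

variable {V : Type*} [Fintype V] {a : V → V → ℝ}

lemma sin_cube (k : ℝ) : |sin k - k| ≤ |k| ^ 3 / 6 := by
  have h : ∀ k : ℝ, 0 < k → |sin k - k| ≤ |k| ^ 3 / 6 := fun k hk => by
    rw [abs_of_pos hk, abs_sub_comm, abs_of_nonneg (by linarith [sin_le hk.le])]
    linarith [sin_gt_sub_cube hk]
  rcases lt_trichotomy k 0 with hk | rfl | hk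
  · have := h (-k) (by linarith)
    rwa [sin_neg, abs_neg, show -sin k - -k = -(sin k - k) by ring, abs_neg] at this
  · simp
  · exact h k hk

lemma taylor (u k : ℝ) (hk : |k| ≤ 2) : |sin (u + k) - sin u - cos u * k| ≤ k ^ 2 := by
  have e : sin (u + k) - sin u - cos u * k = sin u * (cos k - 1) + cos u * (sin k - k) := by
    rw [sin_add]; ring
  have h1 : |cos k - 1| ≤ k ^ 2 / 2 := by
    rw [abs_le]; constructor <;> nlinarith [one_sub_sq_div_two_le_cos (x := k), cos_le_one k]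
  have h2 : |sin k - k| ≤ k ^ 2 / 3 := by
    have := sin_cube k
    rw [← sq_abs k]; nlinarith [sq_nonneg |k|]
  rw [e]
  refine (abs_add_le _ _).trans ?_
  rw [abs_mul, abs_mul]
  nlinarith [abs_sin_le_one u, abs_cos_le_one u, abs_nonneg (cos k - 1), abs_nonneg (sin k - k),
    abs_nonneg (sin u), abs_nonneg (cos u), sq_nonneg k]

lemma sub_sq_le (d : V → ℝ) (i j : V) : (d j - d i) ^ 2 ≤ 4 * N d := by
  nlinarith [sq_le_N d i, sq_le_N d j, sq_nonneg (d j + d i)]

lemma rem (h : Wt a) (x y : V → ℝ) (hN : N (fun i => y i - x i) ≤ 1) (i : V) :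
    |F a y i - F a x i - J a x (fun i => y i - x i) i| ≤
      Fintype.card V * (4 * N fun i => y i - x i) := by
  simp only [F, J, ← sum_sub_distrib]
  refine abs_sum_le fun j => ?_
  have h1 := sub_sq_le (fun i => y i - x i) i j
  have h2 := taylor (x j - x i) ((y j - x j) - (y i - x i)) (by
    rw [← sq_le_sq₀ (abs_nonneg _) zero_le_two, sq_abs]; linarith)
  rw [show x j - x i + (y j - x j - (y i - x i)) = y j - y i by ring] at h2
  have := abs_wt h i j (h2.trans h1)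
  convert this using 2
  ring

lemma hasDerivAt_Q (h : Wt a) (c : ℝ) {θ η : ℝ → V → ℝ} (hθ : Sol a θ) (hη : Sol a η) (t : ℝ) :
    HasDerivAt (fun t => Q a c (θ t) fun i => η t i - θ t i)
      (1 / 2 * ∑ i, ∑ j, a i j * (sin (θ t j - θ t i) * (F a (θ t) j - F a (θ t) i) *
        ((η t j - θ t j) - (η t i - θ t i)) ^ 2) +
        2 * ∑ i, (F a (η t) i - F a (θ t) i) *
          (J a (θ t) (fun i => η t i - θ t i) i - c * (η t i - θ t i))) t := by
  have hd : ∀ i, HasDerivAt (fun t => η t i - θ t i) (F a (η t) i - F a (θ t) i) t :=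
    fun i => (hη.comp t i).sub (hθ.comp t i)
  have h1 := HasDerivAt.fun_sum fun i (_ : i ∈ Finset.univ) => HasDerivAt.fun_sum fun j (_ : j ∈ Finset.univ) =>
    ((((hθ.comp t j).fun_sub (hθ.comp t i)).cos).const_mul (a i j)).fun_mul
      (((hd j).fun_sub (hd i)).fun_pow 2)
  have h2 := HasDerivAt.fun_sum fun i (_ : i ∈ Finset.univ) => (hd i).fun_pow 2
  refine ((h1.const_mul (-(1 / 2))).fun_sub (h2.const_mul c)).congr_deriv ?_
  have h3 := antiJ h (θ t) (fun i => η t i - θ t i) (fun i => F a (η t) i - F a (θ t) i)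
  have h4 : ∀ (u v w : V → V → ℝ) (r : V → V → ℝ), (∀ i j, r i j = -u i j + 2 * v i j) →
      ∑ i, ∑ j, r i j = -∑ i, ∑ j, u i j + 2 * ∑ i, ∑ j, v i j := fun u v w r hr => by
    simp only [hr, sum_add_distrib, sum_neg_distrib, mul_sum]
  rw [h4 (fun i j => a i j * (sin (θ t j - θ t i) * (F a (θ t) j - F a (θ t) i) *
        ((η t j - θ t j) - (η t i - θ t i)) ^ 2))
      (fun i j => a i j * cos (θ t j - θ t i) * ((η t j - θ t j) - (η t i - θ t i)) *
        ((F a (η t) j - F a (θ t) j) - (F a (η t) i - F a (θ t) i))) a _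
      (fun i j => by simp; ring), h3]
  have h5 : ∑ i, (F a (η t) i - F a (θ t) i) *
      (J a (θ t) (fun i => η t i - θ t i) i - c * (η t i - θ t i)) =
      ∑ i, (F a (η t) i - F a (θ t) i) * J a (θ t) (fun i => η t i - θ t i) i -
        c / 2 * ∑ i, ((2 : ℕ) : ℝ) * (η t i - θ t i) ^ (2 - 1) * (F a (η t) i - F a (θ t) i) := by
    rw [mul_sum, ← sum_sub_distrib]
    exact sum_congr rfl fun i _ => by simp; ring
  rw [h5]; ring

lemma Q_deriv (h : Wt a) {c γ ε ρ : ℝ} (x y : V → ℝ) (hε : 0 ≤ ε) (hρ : ρ ^ 2 ≤ 1)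
    (hx : ∀ i, |F a x i| ≤ ε) (hg : ∀ d, γ * N d ≤ N fun i => J a x d i - c * d i)
    (hc : 16 * (Fintype.card V : ℝ) ^ 3 * ρ ^ 2 + 4 * (Fintype.card V : ℝ) ^ 2 * ε ≤ γ)
    (hN : N (fun i => y i - x i) ≤ ρ ^ 2) :
    2 * c * Q a c x (fun i => y i - x i) ≤
      1 / 2 * ∑ i, ∑ j, a i j * (sin (x j - x i) * (F a x j - F a x i) *
        ((y j - x j) - (y i - x i)) ^ 2) +
        2 * ∑ i, (F a y i - F a x i) * (J a x (fun i => y i - x i) i - c * (y i - x i)) := by
  set d : V → ℝ := fun i => y i - x i with hd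
  set n : ℝ := (Fintype.card V : ℝ)
  have n0 : 0 ≤ n := by positivity
  have N0 := N_nonneg d
  have h1 : |∑ i, ∑ j, a i j * (sin (x j - x i) * (F a x j - F a x i) *
      ((y j - x j) - (y i - x i)) ^ 2)| ≤ n * (n * (1 * (2 * ε) * (4 * N d))) := by
    refine abs_sum_le fun i => abs_sum_le fun j => abs_wt h i j ?_
    rw [abs_mul, abs_mul, abs_sq]
    have := abs_sub (F a x j) (F a x i)
    have h2 := sub_sq_le d i j
    gcongr
    · exact abs_sin_le_one _
    · linarith [hx i, hx j]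
  have h2 : ∀ i, (J a x d i - c * d i) ^ 2 + 2 * c * (d i * J a x d i - c * d i ^ 2) -
      (n * (4 * N d)) ^ 2 ≤ 2 * ((F a y i - F a x i) * (J a x d i - c * (y i - x i))) := fun i => by
    have h3 := rem h x y (hN.trans hρ) i
    have h4 : (F a y i - F a x i - J a x d i) ^ 2 ≤ (n * (4 * N d)) ^ 2 := by
      rw [← sq_abs]; gcongr
    have : y i - x i = d i := rfl
    rw [this]
    nlinarith [sq_nonneg (F a y i - F a x i - J a x d i + (J a x d i - c * d i))]
  have h3 := sum_le_sum fun i (_ : i ∈ Finset.univ) => h2 i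
  simp only [sum_sub_distrib, sum_add_distrib, ← mul_sum, sum_const, card_univ,
    nsmul_eq_mul] at h3
  have h4 := hg d
  rw [Q_eq h]
  simp only [N] at h1 h3 h4 hN N0 ⊢
  have h5 := neg_abs_le (∑ i, ∑ j, a i j * (sin (x j - x i) * (F a x j - F a x i) *
      ((y j - x j) - (y i - x i)) ^ 2))
  have h6 : n * (n * (4 * ∑ i, d i ^ 2)) ^ 2 ≤ 16 * n ^ 3 * ρ ^ 2 * ∑ i, d i ^ 2 := by
    have : 0 ≤ 16 * n ^ 3 * ∑ i, d i ^ 2 := by positivity
    nlinarith
  nlinarith [mul_le_mul_of_nonneg_right hc N0]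

lemma Q_size (h : Wt a) {c ε ρ : ℝ} (x y : V → ℝ) (hρ : ρ ≤ 1)
    (hx : ∀ i, |F a x i| ≤ ε) (hy : ∀ i, |F a y i| ≤ ε) {s : ℝ} (s0 : 0 ≤ s) (hs : s ≤ ρ)
    (hN : N (fun i => y i - x i) = s ^ 2) :
    Q a c x (fun i => y i - x i) ≤
      Fintype.card V * (s * (2 * ε + Fintype.card V * (4 * s ^ 2))) - c * s ^ 2 := by
  rw [Q_eq h, hN]
  refine sub_le_sub_right ((le_abs_self _).trans (abs_sum_le fun i => ?_)) _
  have h1 := rem h x y (by rw [hN]; nlinarith) i
  have h2 : |y i - x i| ≤ s := by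
    rw [← sq_le_sq₀ (abs_nonneg _) s0, sq_abs, ← hN]; exact sq_le_N (fun i => y i - x i) i
  rw [abs_mul]
  refine mul_le_mul h2 ?_ (abs_nonneg _) s0
  rw [hN, abs_le] at h1
  have h3 := abs_le.1 (hx i)
  have h4 := abs_le.1 (hy i)
  rw [abs_le]; constructor <;> linarith

lemma cont_N {θ η : ℝ → V → ℝ} (hθ : Sol a θ) (hη : Sol a η) :
    Continuous fun t => N fun i => η t i - θ t i := by
  have h1 : ∀ i, Continuous fun t => θ t i := fun i =>
    continuous_iff_continuousAt.2 fun t => (hθ.comp t i).continuousAt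
  have h2 : ∀ i, Continuous fun t => η t i := fun i =>
    continuous_iff_continuousAt.2 fun t => (hη.comp t i).continuousAt
  unfold N; fun_prop

lemma cone (h : Wt a) {c γ ε ρ : ℝ} (c0 : 0 < c) (hε : 0 ≤ ε) (ρ0 : 0 < ρ) (hρ : ρ ≤ 1)
    (hc : 16 * (Fintype.card V : ℝ) ^ 3 * ρ ^ 2 + 4 * (Fintype.card V : ℝ) ^ 2 * ε ≤ γ)
    (hc2 : 8 * (Fintype.card V : ℝ) ^ 2 * ρ ≤ c) (hc3 : 4 * (Fintype.card V : ℝ) * ε ≤ c * ρ)
    {θ η : ℝ → V → ℝ} (hθ : Sol a θ) (hη : Sol a η)
    (hx : ∀ t, 0 ≤ t → ∀ i, |F a (θ t) i| ≤ ε) (hy : ∀ t, 0 ≤ t → ∀ i, |F a (η t) i| ≤ ε)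
    (hg : ∀ t, 0 ≤ t → ∀ d, γ * N d ≤ N fun i => J a (θ t) d i - c * d i)
    (h0 : N (fun i => η 0 i - θ 0 i) < ρ ^ 2) : Q a c (θ 0) (fun i => η 0 i - θ 0 i) ≤ 0 := by
  by_contra hq
  push Not at hq
  set n : ℝ := (Fintype.card V : ℝ)
  have n0 : 0 ≤ n := by positivity
  set q : ℝ → ℝ := fun t => Q a c (θ t) fun i => η t i - θ t i with hqd
  have grow : ∀ T, 0 ≤ T → (∀ t ∈ Set.Icc 0 T, N (fun i => η t i - θ t i) ≤ ρ ^ 2) →
      q 0 * (1 + 2 * c * T) ≤ q T := fun T hT hN => by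
    have hd := fun t => ((((hasDerivAt_id t).const_mul (-(2 * c))).exp).fun_mul
      (hasDerivAt_Q h c hθ hη t))
    have := monotoneOn_of_deriv_nonneg (convex_Icc 0 T)
      (fun t _ => (hd t).continuousAt.continuousWithinAt)
      (fun t _ => (hd t).differentiableAt.differentiableWithinAt) (fun t ht => by
        have ht := interior_subset ht
        rw [(hd t).deriv]
        have := Q_deriv h (θ t) (η t) hε (by nlinarith) (hx t ht.1) (hg t ht.1) hc (hN t ht)
        have e0 := exp_pos (-(2 * c) * id t)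
        nlinarith [mul_le_mul_of_nonneg_left this e0.le]) ⟨le_rfl, hT⟩ ⟨hT, le_rfl⟩ hT
    simp only [id, mul_zero, exp_zero, one_mul] at this
    have e1 : exp (-(2 * c) * T) * exp (2 * c * T) = 1 := by rw [← exp_add]; simp
    have e2 := add_one_le_exp (2 * c * T)
    have e3 := exp_pos (2 * c * T)
    have e4 := mul_le_mul_of_nonneg_right this e3.le
    have e5 : q T = exp (-(2 * c) * T) * q T * exp (2 * c * T) := by
      rw [mul_right_comm, e1, one_mul]
    rw [e5]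
    nlinarith
  by_cases hall : ∀ t, 0 ≤ t → N (fun i => η t i - θ t i) < ρ ^ 2
  · set M := n * (ρ * (2 * ε + n * (4 * ρ ^ 2)))
    have M0 : 0 ≤ M := by positivity
    have hT : 0 ≤ M / (2 * c * q 0) := by positivity
    have h1 := grow _ hT fun t ht => (hall t ht.1).le
    have h2 := hall _ hT
    set T := M / (2 * c * q 0) with hTd
    have h3 : √(N fun i => η T i - θ T i) ≤ ρ := by
      rw [sqrt_le_left ρ0.le]; exact h2.le
    have h4 := Q_size h (c := c) (θ T) (η T) hρ (hx T hT) (hy T hT) (sqrt_nonneg _) h3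
      (by rw [sq_sqrt (N_nonneg _)])
    have hq' : 0 < q 0 := hq
    have h5 : q 0 * (2 * c * T) = M := by rw [hTd]; field_simp
    set s := √(N fun i => η T i - θ T i)
    have s0 : 0 ≤ s := sqrt_nonneg _
    have h6 : n * (s * (2 * ε + n * (4 * s ^ 2))) ≤ M := by
      show _ ≤ n * (ρ * (2 * ε + n * (4 * ρ ^ 2)))
      gcongr
    have h7 : 0 ≤ c * s ^ 2 := by positivity
    have h8 : q T ≤ M := by linarith
    nlinarith
  · push Not at hall
    obtain ⟨t1, ht1, ht2⟩ := hall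
    have hcl : IsClosed {t | 0 ≤ t ∧ ρ ^ 2 ≤ N fun i => η t i - θ t i} :=
      isClosed_Ici.inter (isClosed_le continuous_const (cont_N hθ hη))
    have hb : BddBelow {t | 0 ≤ t ∧ ρ ^ 2 ≤ N fun i => η t i - θ t i} := ⟨0, fun t ht => ht.1⟩
    have hm := hcl.csInf_mem ⟨t1, ht1, ht2⟩ hb
    obtain ⟨T, hT, e⟩ := intermediate_value_Icc hm.1 (cont_N hθ hη).continuousOn
      (Set.mem_Icc.2 ⟨h0.le, hm.2⟩)
    have h1 := grow T hT.1 fun t ht => by
      by_contra hc
      push Not at hc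
      have h2 := csInf_le hb (a := t) ⟨ht.1, hc.le⟩
      have h3 : t = T := le_antisymm ht.2 (hT.2.trans h2)
      rw [h3] at hc
      exact hc.ne' e
    have h4 := Q_size h (c := c) (θ T) (η T) hρ (hx T hT.1) (hy T hT.1) ρ0.le le_rfl e
    have h5 : 0 < q 0 * (1 + 2 * c * T) := by have := hT.1; positivity
    have h6 : q T ≤ 0 := by
      have := mul_le_mul_of_nonneg_right hc2 (sq_nonneg ρ)
      have := mul_le_mul_of_nonneg_right hc3 ρ0.le
      nlinarith
    linarith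

end Pool.Agent.H.MP_d89e95_an
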