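import Mathlib
import Pool.Agent.H.MP_d89e95_an.B

open Set Real Filter Topology Metric Finset MeasureTheory Pointwise

namespace Pool.Agent.H.MP_d89e95_an

variable {V : Type*} [Fintype V] {a : V → V → ℝ}

def Good (a : V → V → ℝ) (c γ ε : ℝ) (z : V → ℝ) : Prop :=
  (∀ i, |F a z i| ≤ ε) ∧ (∀ d, γ * N d ≤ N fun i => J a z d i - c * d i) ∧ ∃ e, 0 < Q a c z e

lemma Q_smul (c t : ℝ) (z e : V → ℝ) : Q a c z (fun i => t * e i) = t ^ 2 * Q a c z e := by
  simp only [Q, N, ← mul_sub, mul_pow, mul_sub (t ^ 2), mul_sum]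
  congr 1
  · exact sum_congr rfl fun i _ => sum_congr rfl fun j _ => by ring
  · exact sum_congr rfl fun i _ => by ring

lemma null_abs {W : Set (V → ℝ)} {q : (V → ℝ) → (V → ℝ) → ℝ} {m : (V → ℝ) × (V → ℝ) → ℝ}
    {R : ℝ} (c3 : Continuous fun p : (V → ℝ) × (V → ℝ) => q p.1 p.2) (c2 : Continuous m)
    (m0 : ∀ x, m (x, x) < R) (hs : ∀ (t : ℝ) z e, q z (t • e) = t ^ 2 * q z e)
    (h1 : ∀ x ∈ W, ∃ e, 0 < q x e) (h2 : ∀ y ∈ W, ∀ z ∈ W, m (y, z) < R → q y (z - y) ≤ 0) :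
    volume W = 0 := by
  refine measure_null_of_locally_null _ fun x hx => ?_
  obtain ⟨e, he⟩ := h1 x hx
  have c1 : Continuous fun z => q z e := c3.comp (continuous_id.prodMk continuous_const)
  have c4 : Continuous fun p : (V → ℝ) × (V → ℝ) => q p.1 (p.2 - p.1) :=
    c3.comp (continuous_fst.prodMk (continuous_snd.sub continuous_fst))
  have n1 : {z | 0 < q z e} ∈ 𝓝 x := (isOpen_lt continuous_const c1).mem_nhds he
  have n2 : {p | m p < R} ∈ 𝓝 (x, x) := (isOpen_lt c2 continuous_const).mem_nhds (m0 x)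
  rw [nhds_prod_eq, mem_prod_self_iff] at n2
  obtain ⟨U, hU, hU2⟩ := n2
  obtain ⟨r, r0, hr⟩ := Metric.nhds_basis_closedBall.mem_iff.1 (inter_mem n1 hU)
  refine ⟨W ∩ closedBall x r, inter_mem_nhdsWithin _ (closedBall_mem_nhds x r0), ?_⟩
  refine measure_mono_null subset_closure ?_
  have hS : closure (W ∩ closedBall x r) ⊆ closedBall x r :=
    closure_minimal inter_subset_right isClosed_closedBall
  have hQ : closure ((W ∩ closedBall x r) ×ˢ (W ∩ closedBall x r)) ⊆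
      {p | q p.1 (p.2 - p.1) ≤ 0} := by
    refine closure_minimal ?_ (isClosed_le c4 continuous_const)
    rintro ⟨y, z⟩ ⟨hy, hz⟩
    exact h2 y hy.1 z hz.1 (hU2 (mk_mem_prod (hr hy.2).2 (hr hz.2).2))
  rw [closure_prod_eq] at hQ
  refine Measure.addHaar_eq_zero_of_disjoint_translates volume
    (fun k : ℕ => (1 / ((k : ℝ) + 1)) • e)
    (isBounded_range_of_tendsto _ (tendsto_one_div_add_atTop_nhds_zero_nat.smul_const e))
    (fun m n hmn => ?_) isClosed_closure.measurableSet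
  rw [Function.onFun, Set.disjoint_left]
  rintro _ ⟨_, rfl, y, hy, rfl⟩ ⟨_, rfl, z, hz, e1⟩
  have h1 : q y (z - y) ≤ 0 := hQ (mk_mem_prod hy hz)
  have h2 : z - y = (1 / ((m : ℝ) + 1) - 1 / ((n : ℝ) + 1)) • e := by
    funext i
    have := congrFun e1 i
    simp only [Pi.add_apply, Pi.smul_apply, smul_eq_mul, Pi.sub_apply] at this ⊢
    linarith
  have h3 : 1 / ((m : ℝ) + 1) - 1 / ((n : ℝ) + 1) ≠ 0 := by
    rw [sub_ne_zero]
    intro h4
    rw [div_eq_div_iff (by positivity) (by positivity)] at h4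
    exact hmn (by exact_mod_cast (by linarith : (m : ℝ) = n))
  rw [h2, hs] at h1
  have h4 : 0 < q y e := (hr (hS hy)).1
  have := mul_pos (sq_pos_of_ne_zero h3) h4
  linarith

lemma null (h : Wt a) {c γ ε ρ : ℝ} (c0 : 0 < c) (hε : 0 ≤ ε) (ρ0 : 0 < ρ) (hρ : ρ ≤ 1)
    (hc : 16 * (Fintype.card V : ℝ) ^ 3 * ρ ^ 2 + 4 * (Fintype.card V : ℝ) ^ 2 * ε ≤ γ)
    (hc2 : 8 * (Fintype.card V : ℝ) ^ 2 * ρ ≤ c) (hc3 : 4 * (Fintype.card V : ℝ) * ε ≤ c * ρ) :
    volume {y | ∃ θ, θ 0 = y ∧ Sol a θ ∧ ∀ t, 0 ≤ t → Good a c γ ε (θ t)} = 0 := by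
  refine null_abs (q := Q a c) (m := fun p => N fun i => p.2 i - p.1 i) (R := ρ ^ 2)
    (by unfold Q N; fun_prop) (by unfold N; fun_prop) (fun x => by simp [N]; positivity)
    (fun t z e => Q_smul c t z e) ?_ ?_
  · rintro _ ⟨θ, rfl, -, h3⟩
    exact (h3 0 le_rfl).2.2
  · rintro _ ⟨θ, rfl, h1, h2⟩ _ ⟨η, rfl, h3, h4⟩ hm
    exact cone h c0 hε ρ0 hρ hc hc2 hc3 h1 h3 (fun t ht => (h2 t ht).1) (fun t ht => (h4 t ht).1)
      (fun t ht => (h2 t ht).2.1) hm

omit [Fintype V] in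
lemma reduce (z : V → ℝ) : ∃ z' ∈ Set.pi Set.univ fun _ : V => Set.Icc 0 (2 * π),
    ∀ i j, cos (z' j - z' i) = cos (z j - z i) ∧ sin (z' j - z' i) = sin (z j - z i) := by
  refine ⟨fun i => toIcoMod two_pi_pos 0 (z i), fun i _ => Ico_subset_Icc_self (by
    simpa using toIcoMod_mem_Ico two_pi_pos 0 (z i)), fun i j => ?_⟩
  have e : toIcoMod two_pi_pos 0 (z j) - toIcoMod two_pi_pos 0 (z i) = z j - z i +
      ((toIcoDiv two_pi_pos 0 (z i) - toIcoDiv two_pi_pos 0 (z j) : ℤ) : ℝ) * (2 * π) := by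
    simp only [toIcoMod, zsmul_eq_mul]; push_cast; ring
  simp only [e, cos_add_int_mul_two_pi, sin_add_int_mul_two_pi, and_self]

lemma N_pos_of (d : V → ℝ) (h : N d ≤ 0) : d = 0 :=
  funext fun i => pow_eq_zero_iff (two_ne_zero) |>.1 (le_antisymm ((sq_le_N d i).trans h)
    (sq_nonneg _))

lemma compact {c κ : ℝ} (κ0 : 0 < κ)
    (hinj : ∀ z, F a z = 0 → 0 < D a z →
      (∀ d, (∀ i, J a z d i = c * d i) → d = 0) ∧ ∃ e, 0 < Q a c z e) :
    ∃ γ, 0 < γ ∧ ∀ z, N (F a z) < γ → κ ≤ D a z →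
      (∀ d, γ * N d ≤ N fun i => J a z d i - c * d i) ∧ ∃ e, 0 < Q a c z e := by
  set P := Set.pi Set.univ fun _ : V => Set.Icc 0 (2 * π)
  have hP : IsCompact P := isCompact_univ_pi fun _ => isCompact_Icc
  have cD : Continuous (D a) := by unfold D; fun_prop
  have cN : Continuous (N : (V → ℝ) → ℝ) := by unfold N; fun_prop
  have cF : Continuous fun z => N (F a z) := by unfold N F; fun_prop
  have hS : IsCompact {d : V → ℝ | N d = 1} := by
    refine (isCompact_closedBall 0 1).of_isClosed_subset (isClosed_eq cN continuous_const)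
      fun d hd => ?_
    rw [mem_closedBall_zero_iff, pi_norm_le_iff_of_nonneg zero_le_one]
    intro i
    rw [Real.norm_eq_abs, ← sq_le_one_iff_abs_le_one, ← hd]
    exact sq_le_N d i
  have hK := hP.inter_right (isClosed_le (continuous_const (y := κ)) cD)
  obtain ⟨g1, g10, hg1⟩ := (hK.prod hS).exists_forall_le' (a := 0)
    (f := fun p => N (F a p.1) + N fun i => J a p.1 p.2 i - c * p.2 i)
    (Continuous.continuousOn (by unfold N F J; fun_prop)) (by
      rintro ⟨z, d⟩ ⟨hz, hd⟩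
      by_contra hc
      push Not at hc
      have h1 := N_nonneg (F a z)
      have h2 := N_nonneg fun i => J a z d i - c * d i
      have h3 := N_pos_of (F a z) (by linarith)
      have h4 := N_pos_of (fun i => J a z d i - c * d i) (by linarith)
      have h5 := (hinj z h3 (κ0.trans_le hz.2)).1 d fun i => sub_eq_zero.1 (congrFun h4 i)
      have h6 : N d = 1 := hd
      simp [h5, N] at h6)
  have hK2 := hK.inter_right (isClosed_iInter fun e : V → ℝ =>
    isClosed_le (f := fun z => Q a c z e) (by unfold Q; fun_prop) (continuous_const (y := 0)))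
  obtain ⟨g2, g20, hg2⟩ := hK2.exists_forall_le' (a := 0) cF.continuousOn (by
      rintro z ⟨hz, hq⟩
      by_contra hc
      push Not at hc
      obtain ⟨e, he⟩ := (hinj z (N_pos_of _ hc) (κ0.trans_le hz.2)).2
      exact he.not_ge (mem_iInter.1 hq e))
  refine ⟨min (g1 / 2) g2, by positivity, fun z hz hD => ?_⟩
  obtain ⟨z', hz', e⟩ := reduce z
  have eF : F a z' = F a z := funext fun i => by simp only [F, e]
  have eD : D a z' = D a z := by simp only [D, e]
  have eJ : J a z' = J a z := funext fun d => funext fun i => by simp only [J, e]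
  have eQ : Q a c z' = Q a c z := funext fun d => by simp only [Q, e]
  have hm : z' ∈ P ∩ {z | κ ≤ D a z} := ⟨hz', by simpa [eD] using hD⟩
  refine ⟨fun d => ?_, ?_⟩
  · rcases (N_nonneg d).eq_or_lt with h0 | h0
    · rw [← h0, mul_zero]; exact N_nonneg _
    · set s := √(N d)
      have s0 : 0 < s := sqrt_pos.2 h0
      have s2 : s ^ 2 = N d := sq_sqrt h0.le
      have hN : ∀ u : V → ℝ, N (fun i => u i / s) = N u / N d := fun u => by
        simp only [div_pow, N, s2, sum_div]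
      have h1 := hg1 (z', fun i => d i / s) ⟨hm, by
        show N _ = 1
        rw [hN, div_self h0.ne']⟩
      have h2 : (fun i => J a z (fun i => d i / s) i - c * (d i / s)) =
          fun i => (J a z d i - c * d i) / s := funext fun i => by
        simp only [J, sub_div, sum_div, mul_div_assoc]
      simp only [eF, eJ, h2, hN] at h1
      rw [← le_div_iff₀ h0]
      linarith [min_le_left (g1 / 2) g2]
  · by_contra hc
    push Not at hc
    have := hg2 z' ⟨hm, mem_iInter.2 fun e => by simpa [eQ] using hc e⟩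
    rw [eF] at this
    linarith [min_le_right (g1 / 2) g2]

theorem ae_sync (h : Wt a) {c : ℝ} (c0 : 0 < c)
    (hinj : ∀ z, F a z = 0 → 0 < D a z →
      (∀ d, (∀ i, J a z d i = c * d i) → d = 0) ∧ ∃ e, 0 < Q a c z e) :
    ∀ᵐ x, ∀ θ, θ 0 = x → Sol a θ → Tendsto (fun t => D a (θ t)) atTop (𝓝 0) := by
  set n : ℝ := (Fintype.card V : ℝ) with hn
  have n0 : 0 ≤ n := by positivity
  choose Φ Φ0 ΦS using exists_sol h
  have key : ∀ k : ℕ, ∃ γ ε, 0 < ε ∧ (∀ z, (∀ i, |F a z i| ≤ ε) → 1 / ((k : ℝ) + 1) ≤ D a z →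
      Good a c γ ε z) ∧
      volume {y | ∃ θ, θ 0 = y ∧ Sol a θ ∧ ∀ t, 0 ≤ t → Good a c γ ε (θ t)} = 0 := fun k => by
    obtain ⟨γ, γ0, hγ⟩ := compact (κ := 1 / ((k : ℝ) + 1)) (by positivity) hinj
    have sm : ∀ {A B : ℝ}, 0 < B → ∀ᶠ x in 𝓝[>] (0 : ℝ), A * x < B := fun {A B} hB =>
      (((continuous_const.mul continuous_id).tendsto' 0 0 (by simp)).eventually
        (gt_mem_nhds hB)).filter_mono nhdsWithin_le_nhds
    obtain ⟨ρ, r1, r2, r3, r4⟩ := ((sm (A := 16 * n ^ 3) (half_pos γ0)).and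
      ((sm (A := 8 * n ^ 2) c0).and ((sm (A := 1) one_pos).and self_mem_nhdsWithin))).exists
    have r4 : 0 < ρ := r4
    obtain ⟨ε, e1, e2, e3, e4, e5⟩ := ((sm (A := 4 * n ^ 2) (half_pos γ0)).and
      ((sm (A := 4 * n) (mul_pos c0 r4)).and ((sm (A := 1) one_pos).and
        ((sm (A := n) γ0).and self_mem_nhdsWithin)))).exists
    have e5 : 0 < ε := e5
    refine ⟨γ, ε, e5, fun z hz hD => ⟨hz, hγ z ?_ hD⟩, null h (ρ := ρ) c0 e5.le r4 (by linarith) ?_
      r2.le e2.le⟩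
    · have : |N (F a z)| ≤ n * ε := abs_sum_le fun i => by
        rw [abs_sq, ← sq_abs]; nlinarith [hz i, abs_nonneg (F a z i)]
      linarith [le_abs_self (N (F a z))]
    · have : 0 ≤ 16 * n ^ 3 * ρ := by positivity
      nlinarith
  choose γ ε ε0 hG hnull using key
  have lip : ∀ T : ℕ, LipschitzWith (exp ((2 * Fintype.card V : NNReal) * T)).toNNReal
      fun y => Φ y (-T) := fun T => LipschitzWith.of_dist_le_mul fun x y => by
    have := back (F_lip h) (ΦS x) (ΦS y) (T := T) (by positivity)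
    rw [Φ0, Φ0, mul_comm] at this
    rwa [Real.coe_toNNReal _ (exp_pos _).le]
  have hU : volume (⋃ k : ℕ, ⋃ T : ℕ, (fun y => Φ y (-T)) ''
      {y | ∃ θ, θ 0 = y ∧ Sol a θ ∧ ∀ t, 0 ≤ t → Good a c (γ k) (ε k) (θ t)}) = 0 := by
    refine measure_iUnion_null fun k => measure_iUnion_null fun T => ?_
    have := (lip T).hausdorffMeasure_image_le (d := Fintype.card V) (by positivity)
      {y | ∃ θ, θ 0 = y ∧ Sol a θ ∧ ∀ t, 0 ≤ t → Good a c (γ k) (ε k) (θ t)}
    rw [hausdorffMeasure_pi_real, hnull, mul_zero] at this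
    exact nonpos_iff_eq_zero.1 this
  refine measure_mono_null (fun x hx => ?_) hU
  simp only [mem_compl_iff, mem_ofPred_eq, not_forall] at hx
  obtain ⟨θ, rfl, hθ, hx⟩ := hx
  have hb : BddBelow (range fun t => D a (θ t)) := ⟨0, by rintro _ ⟨t, rfl⟩; exact D_nonneg h _⟩
  have hl := tendsto_atTop_ciInf (D_anti h hθ) hb
  have h1 : 0 < ⨅ t, D a (θ t) :=
    (le_ciInf fun t => D_nonneg h _).lt_of_ne fun e => hx (by rwa [← e] at hl)
  obtain ⟨k, hk⟩ := exists_nat_one_div_lt h1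
  obtain ⟨T, hT⟩ := F_small h hθ (ε0 k)
  have hs : Sol a fun t => θ (t + T) := fun t => (hθ (t + T)).comp_add_const t T
  refine mem_iUnion.2 ⟨k, mem_iUnion.2 ⟨T, θ T, ⟨_, by simp, hs, fun t ht =>
    hG k _ (hT _ (by linarith)) (hk.le.trans (ciInf_le hb _))⟩, ?_⟩⟩
  have := back (F_lip h) (ΦS (θ T)) hs (T := T) (by positivity)
  simpa [Φ0] using this

end Pool.Agent.H.MP_d89e95_an
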