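import Mathlib
import Pool.Agent.H.MP_d89e95_an.C

open Real Finset Sum

namespace Pool.Agent.H.MP_d89e95_an

lemma int_case {V : Type*} [Fintype V] {a : V → V → ℝ} {z d : V → ℝ} {K : ℕ} (hK : 2 ≤ K)
    (b : V → V → ℤ) (hb : ∀ i j, a i j * cos (z j - z i) = b i j)
    (hd : ∀ i, J a z d i = 1 / (K : ℝ) * d i) : d = 0 := by
  classical
  have : Fact (1 < K) := ⟨hK⟩
  set M : Matrix V V ℤ := Matrix.of fun i j =>
    K * b i j - if i = j then K * ∑ j, b i j + 1 else 0 with hM
  have h1 : M.det ≠ 0 := fun h => by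
    have e := RingHom.map_det (Int.castRingHom (ZMod K)) M
    have e2 : (Int.castRingHom (ZMod K)).mapMatrix M = -1 := by
      ext i j
      by_cases e : i = j <;> simp [hM, e]
    rw [h, e2, map_zero, Matrix.det_neg, Matrix.det_one, mul_one] at e
    exact (isUnit_neg_one.pow _).ne_zero e.symm
  have h2 : ((Int.castRingHom ℝ).mapMatrix M).det ≠ 0 := by
    rw [← RingHom.map_det]; simpa using h1
  refine Matrix.eq_zero_of_mulVec_eq_zero h2 (funext fun i => ?_)
  have K0 : (K : ℝ) ≠ 0 := by positivity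
  have h3 := hd i
  simp only [J, hb, mul_sub, sum_sub_distrib, ← sum_mul] at h3
  simp [hM, Matrix.mulVec, dotProduct, sub_mul, sum_sub_distrib, mul_assoc, ← mul_sum]
  field_simp at h3
  linarith

lemma odd_low {C : Type*} [Fintype C] (ho : Odd (Fintype.card C)) (P T : C → ℝ) (r : ℝ)
    (r0 : 0 ≤ r) (h : ∀ i, P i ^ 2 + T i ^ 2 = r ^ 2) (hT : ∑ i, T i = 0) :
    r ^ 2 ≤ ∑ i, P i ^ 2 := by
  have h1 : ∀ i, ∃ k : ℤ, |r * ((1 - 2 * k : ℤ) * r - T i)| ≤ P i ^ 2 := fun i => by
    have h2 : |T i| ≤ r := by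
      rw [← sq_le_sq₀ (abs_nonneg _) r0, sq_abs]; nlinarith [h i, sq_nonneg (P i)]
    rw [abs_le] at h2
    rcases le_total 0 (T i) with h3 | h3
    · refine ⟨0, ?_⟩
      rw [abs_le]; push_cast; constructor <;> nlinarith [h i]
    · refine ⟨1, ?_⟩
      rw [abs_le]; push_cast; constructor <;> nlinarith [h i]
  choose k hk using h1
  have h2 := (abs_sum_le_sum_abs _ _).trans (sum_le_sum fun i (_ : i ∈ univ) => hk i)
  rw [← mul_sum, sum_sub_distrib, hT, ← sum_mul, ← Int.cast_sum] at h2
  obtain ⟨q, hq⟩ := ho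
  have h3 : (∑ i, (1 - 2 * k i)) ≠ 0 := by
    rw [sum_sub_distrib, ← mul_sum, sum_const, card_univ, hq]
    simp only [nsmul_eq_mul]; push_cast; omega
  have h4 : (1 : ℝ) ≤ |((∑ i, (1 - 2 * k i) : ℤ) : ℝ)| := by
    exact_mod_cast Int.one_le_abs h3
  rw [sub_zero, abs_mul, abs_mul, abs_of_nonneg r0] at h2
  nlinarith [sq_nonneg r]

variable {C L : Type*} [Fintype C] [Fintype L] [DecidableEq C]

def w (p : L → C) : C ⊕ L → C ⊕ L → ℝ
  | inl _, inl _ => 1
  | inl i, inr l => if p l = i then 1 else 0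
  | inr l, inl i => if p l = i then 1 else 0
  | inr _, inr _ => 0

omit [Fintype C] [Fintype L] in
lemma w_wt (p : L → C) : Wt (w p) :=
  ⟨by rintro (i | i) (j | j) <;> rfl, by
    rintro (i | i) (j | j) <;> simp only [w] <;> first | (split_ifs <;> norm_num) | norm_num, by
    rintro (i | i) (j | j) <;> simp only [w] <;> first | (split_ifs <;> norm_num) | norm_num⟩

variable {p : L → C} {z : C ⊕ L → ℝ}

lemma J_inr (d : C ⊕ L → ℝ) (l : L) :
    J (w p) z d (inr l) = cos (z (inl (p l)) - z (inr l)) * (d (inl (p l)) - d (inr l)) := by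
  simp [J, w]

lemma J_inl (d : C ⊕ L → ℝ) (i : C) :
    J (w p) z d (inl i) = ∑ j, cos (z (inl j) - z (inl i)) * (d (inl j) - d (inl i)) +
      ∑ l, if p l = i then cos (z (inl (p l)) - z (inr l)) * (d (inr l) - d (inl i)) else 0 := by
  simp only [J, w, Fintype.sum_sum_type, one_mul]
  congr 1
  refine sum_congr rfl fun l _ => ?_
  split_ifs with h
  · rw [h, ← cos_neg, neg_sub, one_mul]
  · simp

lemma leaf (hF : F (w p) z = 0) (l : L) : sin (z (inl (p l)) - z (inr l)) = 0 := by
  simpa [F, w] using congrFun hF (inr l)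

lemma core (hF : F (w p) z = 0) (i : C) : ∑ j, sin (z (inl j) - z (inl i)) = 0 := by
  have := congrFun hF (inl i)
  simp only [F, w, Fintype.sum_sum_type, one_mul, Pi.zero_apply] at this
  rw [sum_eq_zero (s := univ) (f := fun l => (if p l = i then 1 else 0) *
    sin (z (inr l) - z (inl i))), add_zero] at this
  · exact this
  · intro l _
    split_ifs with h
    · rw [← h, ← neg_sub, sin_neg, leaf hF]; simp
    · simp

lemma pm {u : ℝ} (h : sin u = 0) : cos u = 1 ∨ cos u = -1 := by
  have := sin_sq_add_cos_sq u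
  rw [h] at this
  exact mul_self_eq_one_iff.1 (by linarith)

lemma dich (hF : F (w p) z = 0) :
    (∑ j, cos (z (inl j)) = 0 ∧ ∑ j, sin (z (inl j)) = 0) ∨
      ∀ i j, sin (z (inl j) - z (inl i)) = 0 := by
  have h : ∀ i, (∑ j, sin (z (inl j))) * cos (z (inl i)) =
      (∑ j, cos (z (inl j))) * sin (z (inl i)) := fun i => by
    have := core hF i
    simp only [sin_sub, sum_sub_distrib, ← sum_mul] at this
    linarith
  by_contra hc
  push Not at hc
  obtain ⟨h1, i, j, h2⟩ := hc
  apply h2
  have h3 : (∑ j, cos (z (inl j))) * sin (z (inl j) - z (inl i)) = 0 := by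
    rw [sin_sub]; linear_combination (-cos (z (inl i))) * h j + cos (z (inl j)) * h i
  have h4 : (∑ j, sin (z (inl j))) * sin (z (inl j) - z (inl i)) = 0 := by
    rw [sin_sub]; linear_combination sin (z (inl j)) * h i - sin (z (inl i)) * h j
  by_cases hX : ∑ j, cos (z (inl j)) = 0
  · exact (mul_eq_zero.1 h4).resolve_left (h1 hX)
  · exact (mul_eq_zero.1 h3).resolve_left hX

lemma inj0 (ho : Odd (Fintype.card C)) {c : ℝ} (c0 : 0 < c)
    (hc : c * (2 * Fintype.card L + 2) ≤ 1) (hF : F (w p) z = 0)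
    (hX : ∑ j, cos (z (inl j)) = 0) (hY : ∑ j, sin (z (inl j)) = 0) (d : C ⊕ L → ℝ)
    (hd : ∀ i, J (w p) z d i = c * d i) : d = 0 := by
  have L0 : (0 : ℝ) ≤ Fintype.card L := by positivity
  have h1 : ∀ l, ∃ t, 0 ≤ t ∧ t ≤ 2 ∧ d (inr l) = t * d (inl (p l)) := fun l => by
    have := hd (inr l)
    rw [J_inr] at this
    have c2 : c ≤ 1 / 2 := by nlinarith
    rcases pm (leaf hF l) with h | h <;> rw [h] at this
    · refine ⟨1 / (1 + c), by positivity, by rw [div_le_iff₀ (by linarith)]; linarith, ?_⟩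
      field_simp; linarith
    · have : 0 < 1 - c := by linarith
      refine ⟨1 / (1 - c), by positivity, by rw [div_le_iff₀ (by linarith)]; linarith, ?_⟩
      field_simp; linarith
  choose t t0 t2 ht using h1
  set α := ∑ j, cos (z (inl j)) * d (inl j) with hα
  set β := ∑ j, sin (z (inl j)) * d (inl j) with hβ
  set P : C → ℝ := fun i => cos (z (inl i)) * α + sin (z (inl i)) * β with hP
  set W : C → ℝ := fun i => 1 + ∑ l, if p l = i then t l else 0 with hW
  have W1 : ∀ i, 1 ≤ W i := fun i => le_add_of_nonneg_right (sum_nonneg fun l _ => by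
    split_ifs; exacts [t0 l, le_rfl])
  have W2 : ∀ i, W i ≤ 1 + Fintype.card L * 2 := fun i => by
    have : |∑ l, if p l = i then t l else 0| ≤ Fintype.card L * 2 := abs_sum_le fun l => by
      split_ifs
      · rw [abs_of_nonneg (t0 l)]; exact t2 l
      · simp
    simp only [hW]; linarith [le_abs_self (∑ l, if p l = i then t l else 0)]
  have h2 : ∀ i, P i = c * W i * d (inl i) := fun i => by
    have h3 := hd (inl i)
    rw [J_inl] at h3
    have h4 : ∑ j, cos (z (inl j) - z (inl i)) * (d (inl j) - d (inl i)) = P i := by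
      simp only [hP, hα, hβ, mul_sum, ← sum_add_distrib]
      have : ∑ j, (cos (z (inl j)) * (cos (z (inl i)) * d (inl i)) +
          sin (z (inl j)) * (sin (z (inl i)) * d (inl i))) = 0 := by
        rw [sum_add_distrib, ← sum_mul, ← sum_mul, hX, hY]; ring
      refine (add_zero _).symm.trans ?_
      rw [← this, ← sum_add_distrib]
      exact sum_congr rfl fun j _ => by rw [cos_sub]; ring
    have h5 : (∑ l, if p l = i then cos (z (inl (p l)) - z (inr l)) * (d (inr l) - d (inl i))
        else 0) = -(c * (∑ l, if p l = i then t l else 0) * d (inl i)) := by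
      rw [mul_sum, sum_mul, ← sum_neg_distrib]
      refine sum_congr rfl fun l _ => ?_
      split_ifs with h
      · have := hd (inr l)
        rw [J_inr] at this
        rw [← h]; linear_combination -this - c * ht l
      · simp
    rw [h4, h5] at h3
    simp only [hW]; linarith
  have h3 : ∑ i, P i * d (inl i) = α ^ 2 + β ^ 2 := by
    simp only [hP, add_mul, sum_add_distrib, sq]
    congr 1
    · conv_rhs => rw [hα, mul_sum]
      exact sum_congr rfl fun j _ => by ring
    · conv_rhs => rw [hβ, mul_sum]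
      exact sum_congr rfl fun j _ => by ring
  have h4 := odd_low ho P (fun i => sin (z (inl i)) * α - cos (z (inl i)) * β) _
    (sqrt_nonneg (α ^ 2 + β ^ 2)) (fun i => by
      rw [sq_sqrt (by positivity)]
      simp only [hP]; linear_combination (α ^ 2 + β ^ 2) * sin_sq_add_cos_sq (z (inl i)))
    (by rw [sum_sub_distrib, ← sum_mul, ← sum_mul, hX, hY]; ring)
  rw [sq_sqrt (by positivity)] at h4
  have h5 : ∑ i, P i ^ 2 ≤ (1 - c) * ∑ i, P i * d (inl i) := by
    rw [mul_sum]
    refine sum_le_sum fun i _ => ?_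
    have h6 : 0 ≤ c * W i * d (inl i) ^ 2 := by have := W1 i; positivity
    have h7 : c * W i ≤ 1 - c := by nlinarith [W2 i]
    rw [h2]; nlinarith
  have h6 : α ^ 2 + β ^ 2 ≤ 0 := by rw [h3] at h5; nlinarith
  have h7 : α = 0 := by nlinarith [sq_nonneg α, sq_nonneg β]
  have h8 : β = 0 := by nlinarith [sq_nonneg α, sq_nonneg β]
  have h9 : ∀ i, d (inl i) = 0 := fun i => by
    have := h2 i
    simp only [hP, h7, h8, mul_zero, add_zero] at this
    exact (mul_eq_zero.1 this.symm).resolve_left (by have := W1 i; positivity)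
  funext v
  rcases v with i | l
  · exact h9 i
  · rw [ht, h9]; simp

lemma inj1 {K : ℕ} (hK : 2 ≤ K) (hF : F (w p) z = 0) (h : ∀ i j, sin (z (inl j) - z (inl i)) = 0)
    (d : C ⊕ L → ℝ) (hd : ∀ i, J (w p) z d i = 1 / (K : ℝ) * d i) : d = 0 := by
  have h0 : ∀ {u : ℝ}, sin u = 0 → ∃ b : ℤ, 1 * cos u = b := fun h => by
    rcases pm h with e | e
    exacts [⟨1, by simp [e]⟩, ⟨-1, by simp [e]⟩]
  have h1 : ∀ i j, ∃ b : ℤ, w p i j * cos (z j - z i) = b := by
    rintro (i | i) (j | j) <;> simp only [w]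
    · exact h0 (h i j)
    · split_ifs with e
      · exact h0 (by rw [← e, ← neg_sub, sin_neg, leaf hF, neg_zero])
      · exact ⟨0, by simp⟩
    · split_ifs with e
      · exact h0 (by rw [← e, leaf hF])
      · exact ⟨0, by simp⟩
    · exact ⟨0, by simp⟩
  choose b hb using h1
  exact int_case hK b hb hd

lemma posdir (ho : Odd (Fintype.card C)) {c : ℝ} (c0 : 0 < c)
    (hc : c * (2 * Fintype.card L + 2) ≤ 1) (hF : F (w p) z = 0) (hD : 0 < D (w p) z) :
    ∃ e, 0 < Q (w p) c z e := by
  classical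
  have L0 : (0 : ℝ) ≤ Fintype.card L := by positivity
  by_cases hl : ∀ l, cos (z (inl (p l)) - z (inr l)) = 1
  swap
  · push Not at hl
    obtain ⟨l, hl⟩ := hl
    have h1 := (pm (leaf hF l)).resolve_left hl
    refine ⟨Pi.single (inr l) 1, ?_⟩
    rw [Q_eq (w_wt p)]
    simp [N, Pi.single_apply, J_inr, h1]
    nlinarith
  have h1 : ∃ i, ∑ j, cos (z (inl j) - z (inl i)) ≤ 0 := by
    rcases dich hF with ⟨hX, hY⟩ | h
    · obtain ⟨i⟩ := Fintype.card_pos_iff.1 ho.pos
      exact ⟨i, by simp [cos_sub, sum_add_distrib, ← sum_mul, hX, hY]⟩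
    · by_cases h2 : ∀ i j, cos (z (inl j) - z (inl i)) = 1
      · refine absurd ?_ hD.ne'
        refine sum_eq_zero fun u _ => sum_eq_zero fun v _ => ?_
        rcases u with i | i <;> rcases v with j | j <;> simp only [w]
        · simp [h2]
        · split_ifs with e
          · rw [← e, ← cos_neg, neg_sub, hl]; simp
          · simp
        · split_ifs with e
          · rw [← e, hl]; simp
          · simp
        · simp
      · push Not at h2
        obtain ⟨i, k, h2⟩ := h2
        have h3 := (pm (h i k)).resolve_left h2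
        have h4 : ∑ j, cos (z (inl j) - z (inl i)) + ∑ j, cos (z (inl j) - z (inl k)) = 0 := by
          rw [← sum_add_distrib]
          refine sum_eq_zero fun j _ => ?_
          rw [show z (inl j) - z (inl i) = z (inl j) - z (inl k) + (z (inl k) - z (inl i)) by ring,
            cos_add, h3, h i k]; ring
        by_contra h5
        push Not at h5
        linarith [h5 i, h5 k]
  obtain ⟨i, hi⟩ := h1
  refine ⟨Sum.elim (fun j => if j = i then 1 else 0) fun l => if p l = i then 1 else 0, ?_⟩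
  rw [Q_eq (w_wt p)]
  have h2 : |∑ l, (if p l = i then (1 : ℝ) else 0) ^ 2| ≤ Fintype.card L * 1 :=
    abs_sum_le fun l => by split_ifs <;> simp
  have h3 : ∑ j, cos (z (inl j) - z (inl i)) * ((if j = i then 1 else 0) - 1) =
      1 - ∑ j, cos (z (inl j) - z (inl i)) := by
    simp [mul_sub, sum_sub_distrib]
  have h4 : ∀ l, (if p l = i then cos (z (inl (p l)) - z (inr l)) *
      ((if p l = i then (1 : ℝ) else 0) - 1) else 0) = 0 := fun l => by split_ifs <;> simp
  simp only [N, Fintype.sum_sum_type, J_inr, elim_inl, elim_inr, sub_self, mul_zero,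
    sum_const_zero, add_zero, ite_mul, one_mul, zero_mul, sum_ite_eq', mem_univ, if_true, J_inl,
    h3, h4]
  simp only [ite_pow, one_pow, ne_eq, OfNat.ofNat_ne_zero, not_false_eq_true, zero_pow,
    sum_ite_eq', mem_univ, if_true] at h2 ⊢
  nlinarith [le_abs_self (∑ l, if p l = i then (1 : ℝ) else 0)]

theorem sync (ho : Odd (Fintype.card C)) (p : L → C) :
    ∀ᵐ x, ∀ θ, θ 0 = x → Sol (w p) θ →
      Filter.Tendsto (fun t => D (w p) (θ t)) Filter.atTop (nhds 0) := by
  have hc : 1 / ((2 * Fintype.card L + 2 : ℕ) : ℝ) * (2 * Fintype.card L + 2) ≤ 1 := by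
    push_cast; rw [one_div_mul_cancel (by positivity)]
  refine ae_sync (w_wt p) (c := 1 / ((2 * Fintype.card L + 2 : ℕ) : ℝ)) (by positivity)
    fun z hF hD => ⟨fun d hd => ?_, posdir ho (by positivity) hc hF hD⟩
  rcases dich hF with ⟨hX, hY⟩ | h
  · exact inj0 ho (by positivity) hc hF hX hY d hd
  · exact inj1 (by omega) hF h d hd

end Pool.Agent.H.MP_d89e95_an
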