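import Mathlib
import Pool.Agent.H.MP_d89e95_an.D

open Real Finset Sum Filter Topology

namespace Pool.Agent.H.MP_d89e95_an

lemma taylor2 (u k : ℝ) (hk : |k| ≤ 1) :
    cos u * k ^ 2 / 2 + sin u * k - |k| * k ^ 2 ≤ cos u - cos (u + k) := by
  have h1 := cos_bound hk
  have h2 := sin_cube k
  have h3 : |k| ^ 3 = |k| * k ^ 2 := by rw [← sq_abs k]; ring
  have h4 : |k| ^ 4 ≤ |k| ^ 3 := pow_le_pow_of_le_one (abs_nonneg _) hk (by norm_num)
  have h5 : |cos u * (cos k - (1 - k ^ 2 / 2))| ≤ 1 * (|k| ^ 4 * (5 / 96)) := by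
    rw [abs_mul]; gcongr; exact abs_cos_le_one u
  have h6 : |sin u * (sin k - k)| ≤ 1 * (|k| ^ 3 / 6) := by
    rw [abs_mul]; gcongr; exact abs_sin_le_one u
  have h7 : 0 ≤ |k| ^ 3 := by positivity
  rw [abs_le] at h5 h6
  rw [cos_add]
  nlinarith [h5.2, h6.1]

variable {V : Type*} [Fintype V] {a : V → V → ℝ}

lemma D_low (h : Wt a) {x : V → ℝ} (hF : F a x = 0) (z u : V → ℝ)
    (hu : ∀ i j, z j - z i = x j - x i + (u j - u i)) {s : ℝ} (s0 : 0 ≤ s) (s1 : s ≤ 1 / 2)
    (hN : N u = s ^ 2) :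
    (∑ i, ∑ j, a i j * cos (x j - x i) * (u j - u i) ^ 2) / 2 -
      8 * (Fintype.card V : ℝ) ^ 2 * s ^ 3 ≤ D a z - D a x := by
  have h1 : ∀ i j, |u j - u i| ≤ 2 * s := fun i j => by
    rw [← sq_le_sq₀ (abs_nonneg _) (by positivity), sq_abs]; linarith [sub_sq_le u i j]
  have h2 : ∀ i j, a i j * cos (x j - x i) * (u j - u i) ^ 2 / 2 +
      a i j * sin (x j - x i) * (u j - u i) - 8 * s ^ 3 ≤
      a i j * (1 - cos (z j - z i)) - a i j * (1 - cos (x j - x i)) := fun i j => by
    have h3 := taylor2 (x j - x i) (u j - u i) (by linarith [h1 i j])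
    have h4 : |u j - u i| * (u j - u i) ^ 2 ≤ 2 * s * (2 * s) ^ 2 := by
      rw [← sq_abs (u j - u i)]; gcongr <;> exact h1 i j
    have h5 : 0 ≤ s ^ 3 := by positivity
    rw [hu]
    nlinarith [mul_le_mul_of_nonneg_left h3 (h.h0 i j), h.h0 i j, h.h1 i j,
      mul_le_mul_of_nonneg_left h4 (h.h0 i j)]
  have h3 := sum_le_sum fun i (_ : i ∈ univ) => sum_le_sum fun j (_ : j ∈ univ) => h2 i j
  simp only [sum_sub_distrib, sum_add_distrib, antiF h, hF, ← sum_div, sum_const, card_univ,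
    nsmul_eq_mul, Pi.zero_apply, mul_zero] at h3
  simp only [D]
  linarith

lemma stable (h : Wt a) (v : V) {x : V → ℝ} (hF : F a x = 0) {κ : ℝ} (κ0 : 0 < κ)
    (hH : ∀ u, u v = 0 → κ * N u ≤ ∑ i, ∑ j, a i j * cos (x j - x i) * (u j - u i) ^ 2) :
    ∃ U, IsOpen U ∧ x ∈ U ∧ ∀ θ, θ 0 ∈ U → Sol a θ → ∀ t, 0 ≤ t → ∀ i,
      |θ t i - θ t v - (x i - x v)| ≤ 1 := by
  set n : ℝ := (Fintype.card V : ℝ)
  set s := min (1 / 2) (κ / (32 * n ^ 2 + 1)) with hs
  have s0 : 0 < s := by positivity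
  have s1 : s ≤ 1 / 2 := min_le_left _ _
  have s2 : s * (32 * n ^ 2 + 1) ≤ κ := by
    rw [← le_div_iff₀ (by positivity)]; exact min_le_right _ _
  have c1 : Continuous fun z : V → ℝ => N fun i => z i - z v - (x i - x v) := by
    unfold N; fun_prop
  have cD : Continuous (D a) := by unfold D; fun_prop
  refine ⟨{z | (N fun i => z i - z v - (x i - x v)) < s ^ 2} ∩ {z | D a z < D a x + κ * s ^ 2 / 4},
    (isOpen_lt c1 continuous_const).inter (isOpen_lt cD continuous_const),
    ⟨by simp [N]; positivity, by simp; positivity⟩, fun θ h0 hθ t ht i => ?_⟩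
  have cθ : Continuous θ := continuous_iff_continuousAt.2 fun t => (hθ t).continuousAt
  have h1 : (N fun i => θ t i - θ t v - (x i - x v)) < s ^ 2 := by
    by_contra hc
    push Not at hc
    obtain ⟨T, hT, e⟩ := intermediate_value_Icc ht (c1.comp cθ).continuousOn
      (Set.mem_Icc.2 ⟨le_of_lt h0.1, hc⟩)
    have e : (N fun i => θ T i - θ T v - (x i - x v)) = s ^ 2 := e
    have h2 := D_low h hF (θ T) _ (fun i j => by ring) s0.le s1 e
    have h3 := hH (fun i => θ T i - θ T v - (x i - x v)) (by simp)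
    have h4 : D a (θ T) ≤ D a (θ 0) := D_anti h hθ hT.1
    have h5 : D a (θ 0) < D a x + κ * s ^ 2 / 4 := h0.2
    rw [e] at h3
    nlinarith [mul_le_mul_of_nonneg_right s2 (sq_nonneg s), pow_pos s0 3]
  rw [← sq_le_one_iff_abs_le_one]
  nlinarith [sq_le_N (fun i => θ t i - θ t v - (x i - x v)) i]

def wu (a : V → V → ℝ) : Option V → Option V → ℝ
  | none, none => 0
  | none, some _ => 1
  | some _, none => 1
  | some i, some j => a i j

omit [Fintype V] in
lemma wu_wt (h : Wt a) : Wt (wu a) :=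
  ⟨by rintro (_ | i) (_ | j) <;> first | rfl | exact h.sy i j, by
    rintro (_ | i) (_ | j) <;> first | exact h.h0 i j | simp [wu], by
    rintro (_ | i) (_ | j) <;> first | exact h.h1 i j | simp [wu]⟩

abbrev X := Bool × Fin 16
abbrev V0 := Option X ⊕ X × Fin 14

def par (l : X × Fin 14) : Option X := some l.1

def sg (b : Bool) : ℝ := if b then 1 else -1

noncomputable def g : ℝ := cos (arcsin (1 / 4))

noncomputable def xs : Option V0 → ℝ
  | none => 0
  | some (inl none) => π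
  | some (inl (some y)) => sg y.1 * (π - 2 * arcsin (1 / 4))
  | some (inr l) => sg l.1.1 * (π / 2 - arcsin (1 / 4))

lemma s4 : sin (arcsin (1 / 4)) = 1 / 4 := sin_arcsin (by norm_num) (by norm_num)

lemma g2 : g ^ 2 = 15 / 16 := by
  have := sin_sq_add_cos_sq (arcsin (1 / 4))
  rw [s4] at this; unfold g; linarith

lemma sg2 (b : Bool) : sg b ^ 2 = 1 := by cases b <;> simp [sg]

lemma cos_sg (b : Bool) (u : ℝ) : cos (sg b * u) = cos u := by cases b <;> simp [sg]

lemma sin_sg (b : Bool) (u : ℝ) : sin (sg b * u) = sg b * sin u := by cases b <;> simp [sg]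

lemma c0 : cos (xs none) = 1 := cos_zero
lemma s0 : sin (xs none) = 0 := sin_zero
lemma c1 : cos (xs (some (inl none))) = -1 := cos_pi
lemma s1 : sin (xs (some (inl none))) = 0 := sin_pi
lemma c2 (y : X) : cos (xs (some (inl (some y)))) = -(7 / 8) := by
  simp only [xs, cos_sg, cos_pi_sub, cos_two_mul, ← g.eq_1, g2]; norm_num
lemma s2 (y : X) : sin (xs (some (inl (some y)))) = sg y.1 * g / 2 := by
  simp only [xs, sin_sg, sin_pi_sub, sin_two_mul, ← g.eq_1, s4]; ring
lemma c3 (l : X × Fin 14) : cos (xs (some (inr l))) = 1 / 4 := by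
  simp only [xs, cos_sg, cos_pi_div_two_sub, s4]
lemma s3 (l : X × Fin 14) : sin (xs (some (inr l))) = sg l.1.1 * g := by
  simp only [xs, sin_sg, sin_pi_div_two_sub, ← g.eq_1]

lemma equil : F (wu (w par)) xs = 0 := by
  funext v
  rcases v with _ | (_ | ⟨b, i⟩) | ⟨⟨b, i⟩, k⟩ <;>
    simp only [F, Fintype.sum_option, Fintype.sum_sum_type, wu, w, par, sin_sub, c0, s0, c1, s1,
      c2, s2, c3, s3, Fintype.sum_prod_type, Fintype.sum_bool]
  · simp [sg]; ring
  · simp [sg]; ring
  · cases b <;> simp [sg] <;> ring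
  · cases b <;> simp [sg] <;> ring

lemma hess (u : Option V0 → ℝ) (hu : u none = 0) :
    1 / 10 * N u ≤ ∑ i, ∑ j, wu (w par) i j * cos (xs j - xs i) * (u j - u i) ^ 2 := by
  have h1 : 0 ≤ ∑ x : X, ∑ y : X, (-(7 / 8) * -(7 / 8) + sg y.1 * g / 2 * (sg x.1 * g / 2)) *
      (u (some (inl (some y))) - u (some (inl (some x)))) ^ 2 := by
    refine sum_nonneg fun x _ => sum_nonneg fun y _ => mul_nonneg ?_ (sq_nonneg _)
    rcases x with ⟨_ | _, _⟩ <;> rcases y with ⟨_ | _, _⟩ <;> simp [sg] <;> nlinarith [g2]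
  have h2 : ∀ x : X, sg x.1 * g * (sg x.1 * g / 2) = 15 / 32 := fun x => by
    nlinarith [g2, sg2 x.1]
  have h3 : ∀ x : X, u (some (inl none)) ^ 2 / 2 ≤ -(37 / 20) * u (some (inl (some x))) ^ 2 +
      7 / 4 * (u (some (inl (some x))) - u (some (inl none))) ^ 2 +
      ∑ k : Fin 14, (2 / 5 * u (some (inr (x, k))) ^ 2 +
        1 / 2 * (u (some (inr (x, k))) - u (some (inl (some x)))) ^ 2) := fun x => by
    have := sum_le_sum fun (k : Fin 14) (_ : k ∈ univ) =>
      (by nlinarith [sq_nonneg (9 * u (some (inr (x, k))) - 5 * u (some (inl (some x)))),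
        sq_nonneg (u (some (inl (some x))))] :
        1 / 5 * u (some (inl (some x))) ^ 2 ≤ 2 / 5 * u (some (inr (x, k))) ^ 2 +
        1 / 2 * (u (some (inr (x, k))) - u (some (inl (some x)))) ^ 2)
    simp only [sum_const, card_univ, Fintype.card_fin, nsmul_eq_mul] at this
    push_cast at this
    nlinarith [sq_nonneg (27 * u (some (inl (some x))) - 35 / 2 * u (some (inl none))),
      sq_nonneg (u (some (inl none)))]
  have h4 := sum_le_sum fun (x : X) (_ : x ∈ univ) => h3 x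
  have r0 : ∑ j, wu (w par) none j * cos (xs j - xs none) * (u j - u none) ^ 2 =
      -u (some (inl none)) ^ 2 + ∑ x : X, -(7 / 8) * u (some (inl (some x))) ^ 2 +
      ∑ x : X, ∑ k : Fin 14, 1 / 4 * u (some (inr (x, k))) ^ 2 := by
    simp only [Fintype.sum_option, Fintype.sum_sum_type, wu, cos_sub, c0, s0, c1, s1, c2, c3, hu,
      Fintype.sum_prod_type (α₂ := Fin 14)]
    simp
  have r1 : ∑ j, wu (w par) (some (inl none)) j * cos (xs j - xs (some (inl none))) *
      (u j - u (some (inl none))) ^ 2 = -u (some (inl none)) ^ 2 +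
      ∑ x : X, 7 / 8 * (u (some (inl (some x))) - u (some (inl none))) ^ 2 := by
    simp only [Fintype.sum_option, Fintype.sum_sum_type, wu, w, par, cos_sub, c0, s0, c1, s1, c2,
      c3, hu]
    simp
  have r2 : ∀ x : X, ∑ j, wu (w par) (some (inl (some x))) j *
      cos (xs j - xs (some (inl (some x)))) * (u j - u (some (inl (some x)))) ^ 2 =
      -(7 / 8) * u (some (inl (some x))) ^ 2 +
      7 / 8 * (u (some (inl (some x))) - u (some (inl none))) ^ 2 +
      ∑ y : X, (-(7 / 8) * -(7 / 8) + sg y.1 * g / 2 * (sg x.1 * g / 2)) *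
        (u (some (inl (some y))) - u (some (inl (some x)))) ^ 2 +
      ∑ k : Fin 14, 1 / 4 * (u (some (inr (x, k))) - u (some (inl (some x)))) ^ 2 := fun x => by
    simp only [Fintype.sum_option, Fintype.sum_sum_type, wu, w, par, cos_sub, c0, s0, c1, s1, c2,
      s2, c3, s3, hu, Fintype.sum_prod_type (α₂ := Fin 14), Option.some.injEq, ite_mul, one_mul,
      zero_mul]
    rw [sum_comm (t := (univ : Finset (Fin 14)))]
    simp only [sum_ite_eq', mem_univ, if_true, h2]
    norm_num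
    ring
  have r3 : ∀ (x : X) (k : Fin 14), ∑ j, wu (w par) (some (inr (x, k))) j *
      cos (xs j - xs (some (inr (x, k)))) * (u j - u (some (inr (x, k)))) ^ 2 =
      1 / 4 * u (some (inr (x, k))) ^ 2 +
      1 / 4 * (u (some (inr (x, k))) - u (some (inl (some x)))) ^ 2 := fun x k => by
    simp only [Fintype.sum_option, Fintype.sum_sum_type, wu, w, par, cos_sub, c0, s0, c1, s1, c2,
      s2, c3, s3, hu, Option.some.injEq, ite_mul, one_mul, zero_mul, sum_ite_eq, mem_univ, if_true]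
    simp
    nlinarith [h2 x]
  rw [Fintype.sum_option, r0, Fintype.sum_sum_type, Fintype.sum_option, r1,
    Fintype.sum_prod_type (α₂ := Fin 14)]
  simp only [r2, r3, N]
  rw [Fintype.sum_option, Fintype.sum_sum_type, Fintype.sum_option,
    Fintype.sum_prod_type (α₂ := Fin 14), hu]
  simp only [sum_add_distrib, ← mul_sum, sum_const, card_univ, Fintype.card_prod,
    Fintype.card_bool, Fintype.card_fin, nsmul_eq_mul] at h4 ⊢
  push_cast at h4
  nlinarith [sq_nonneg (u (some (inl none)))]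

end Pool.Agent.H.MP_d89e95_an
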